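import Mathlib
import Pool.Agent.H706Z.CptC
import Pool.Agent.Helper639.ForceCH

set_option autoImplicit false

namespace Pool.Agent.Results.MP_d76130_gt.ACompactConsistent

open Pool.Agent.Helper639.ForceCH (OmegaOnePreserved CHHolds)

/-- Some forcing notion forces that `ω₁` is preserved and CH holds, and CH implies that there is a
compact Hausdorff zero-dimensional space `X` such that `C_p(X, {0,1})` is normal (even Lindelof)
while its square is not normal. -/
theorem result :
    (∃ (P : Type) (_ : Preorder P), Nonempty P ∧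
      ∀ p : P, p ∈ OmegaOnePreserved P ∧ p ∈ CHHolds P) ∧
    (Cardinal.aleph.{0} 1 = Cardinal.continuum →
      ∃ (X : Type) (_ : TopologicalSpace X), CompactSpace X ∧ T2Space X ∧
        TopologicalSpace.IsTopologicalBasis {s : Set X | IsClopen s} ∧
        NormalSpace {f : X → ZMod 2 // Continuous f} ∧
        LindelofSpace {f : X → ZMod 2 // Continuous f} ∧
        ¬ NormalSpace ({f : X → ZMod 2 // Continuous f} × {f : X → ZMod 2 // Continuous f})) := by
  refine ⟨?_, fun hCH => ?_⟩
  · obtain ⟨P, i, hn, h⟩ := Pool.Agent.Helper639.ForceCH.exists_forcing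
    exact ⟨P, i, hn, fun p => ⟨(h p).1, (h p).2.2⟩⟩
  · obtain ⟨X, i1, h1, h2, h3, h4, h5⟩ := Pool.Agent.H706Z.Cpt.main hCH
    exact ⟨X, i1, h1, h2, h3, inferInstance, h4, h5⟩

end Pool.Agent.Results.MP_d76130_gt.ACompactConsistent
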